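import Pool.Agent.Helper77.PPS.GoalsN
import Pool.Agent.Helper40.RS.Gal

/-!
# Packet PPS-N_LAB: the labelled primes
-/

namespace Pool.Agent.Helper60.PPS

open NumberField Polynomial Module IsDedekindDomain Pool.Agent.Helper51.RP
open Pool.Agent.Helper77.PPS
open Pool.Agent.Helper42.PP (Spl Base Tau)
open Pool.Agent.Helper40.RS (bel gw val_smul)
open scoped Pointwise

section gal

variable {K K₁ M₁ : Type} [Field K] [NumberField K] [Field K₁] [NumberField K₁] [Field M₁]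
  [NumberField M₁] [Algebra K K₁] [Algebra K M₁] [Algebra K₁ M₁] [IsScalarTower K K₁ M₁]
  [IsGalois K K₁] [IsGalois K M₁]

theorem free_down (W : HeightOneSpectrum (𝓞 M₁)) (hW : FreeP K W) : FreeP K (bel K₁ W) := by
  intro σ hσ
  have hgal : IsGalois K₁ M₁ := IsGalois.tower_top_of_isGalois K K₁ M₁
  obtain ⟨τ, hτ⟩ := AlgEquiv.restrictNormalHom_surjective (F := K) (K₁ := K₁) M₁ σ
  have hcom : ∀ y : K₁, algebraMap K₁ M₁ (σ y) = τ (algebraMap K₁ M₁ y) := by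
    intro y
    rw [← hτ]
    exact AlgEquiv.restrictNormal_commutes τ K₁ y
  -- membership
  have hmem : ∀ x : 𝓞 K₁, σ • x ∈ (bel K₁ W).asIdeal ↔ x ∈ (bel K₁ W).asIdeal := by
    intro x
    rw [← HeightOneSpectrum.valuation_lt_one_iff_mem (K := K₁),
      ← HeightOneSpectrum.valuation_lt_one_iff_mem (K := K₁)]
    show (bel K₁ W).valuation K₁ (σ (x : K₁)) < 1 ↔ (bel K₁ W).valuation K₁ (x : K₁) < 1
    rw [hσ]
  have hbel : bel K₁ (gw τ W) = bel K₁ W := by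
    apply HeightOneSpectrum.ext
    ext x
    show algebraMap (𝓞 K₁) (𝓞 M₁) x ∈ τ • W.asIdeal ↔ x ∈ (bel K₁ W).asIdeal
    rw [Ideal.mem_pointwise_smul_iff_inv_smul_mem]
    have h2 : τ⁻¹ • algebraMap (𝓞 K₁) (𝓞 M₁) x = algebraMap (𝓞 K₁) (𝓞 M₁) (σ⁻¹ • x) := by
      have h3 : τ • algebraMap (𝓞 K₁) (𝓞 M₁) (σ⁻¹ • x) = algebraMap (𝓞 K₁) (𝓞 M₁) x := by
        apply RingOfIntegers.ext
        show τ (algebraMap K₁ M₁ (σ⁻¹ (x : K₁))) = algebraMap K₁ M₁ (x : K₁)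
        rw [← hcom]
        congr 1
        exact σ.apply_symm_apply _
      rw [← h3, inv_smul_smul]
    rw [h2]
    show σ⁻¹ • x ∈ (bel K₁ W).asIdeal ↔ _
    rw [← hmem (σ⁻¹ • x), smul_inv_smul]
  obtain ⟨g, hg⟩ := Pool.Agent.Helper40.RS.conj_of_bel (K := K₁) (gw τ W) W hbel
  have h4 := hW ((g.restrictScalars K)⁻¹ * τ) (fun y => by
    rw [← hg]
    have h5 : g (((g.restrictScalars K)⁻¹ * τ) y) = τ y := g.apply_symm_apply _
    rw [h5]
    exact val_smul τ W (gw τ W) rfl y)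
  have h6 : τ = g.restrictScalars K := by
    have : τ = g.restrictScalars K * ((g.restrictScalars K)⁻¹ * τ) := by
      rw [mul_inv_cancel_left]
    rw [this, h4, mul_one]
  ext y
  apply (algebraMap K₁ M₁).injective
  rw [hcom, h6]
  exact g.commutes y

theorem vis_sub (S : Finset (HeightOneSpectrum (𝓞 K))) : Spl M₁ S ⊆ Spl K₁ S := by
  rintro v ⟨hv, W, hW, hf⟩
  refine ⟨hv, bel K₁ W, ?_, free_down W hf⟩
  have h1 : W.asIdeal.comap (algebraMap (𝓞 K) (𝓞 M₁)) = v.asIdeal := hW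
  show (W.asIdeal.comap (algebraMap (𝓞 K₁) (𝓞 M₁))).comap (algebraMap (𝓞 K) (𝓞 K₁)) = v.asIdeal
  rw [Ideal.comap_comap, ← h1]
  congr 1
  ext x
  exact (IsScalarTower.algebraMap_apply K K₁ M₁ (x : K)).symm

end gal

theorem PSys.mono {P : Type} {N : P → ℕ} {C C' : ℝ} (h : PSys N C) (hC : C ≤ C') : PSys N C' where
  two := h.two
  cheb x F hx hF := (h.cheb x F hx hF).trans (mul_le_mul_of_nonneg_right hC (by linarith))

section lab

variable {V : Type} (p : ℕ) [hp : Fact p.Prime] (N : V → ℕ) (A : Set V)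

theorem card_units : ((Fintype.card (ZMod p)ˣ : ℕ) : ℝ) = (p : ℝ) - 1 := by
  rw [ZMod.card_units p, Nat.cast_sub hp.out.one_le, Nat.cast_one]

open Classical in
theorem lab_psys {C : ℝ} (h : PSys N C) :
    PSys (fun q : {q : V × (ZMod p)ˣ // q.1 ∈ A} => N q.1.1) (((p : ℝ) - 1) * C) where
  two q := h.two q.1.1
  cheb x F hx hF := by
    have h1 : ∑ q ∈ F, Real.log (N q.1.1) =
        ∑ v ∈ F.image (fun q => q.1.1), ∑ q ∈ F.filter (fun q => q.1.1 = v),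
          Real.log (N q.1.1) :=
      (Finset.sum_fiberwise_of_maps_to (fun q hq => Finset.mem_image_of_mem _ hq) _).symm
    rw [h1]
    have h2 : ∀ v ∈ F.image (fun q => q.1.1), ∑ q ∈ F.filter (fun q => q.1.1 = v),
        Real.log (N q.1.1) ≤ ((p : ℝ) - 1) * Real.log (N v) := by
      intro v _
      have h3 : ∑ q ∈ F.filter (fun q => q.1.1 = v), Real.log (N q.1.1) =
          ((F.filter (fun q => q.1.1 = v)).card : ℝ) * Real.log (N v) := by
        rw [Finset.sum_congr rfl (g := fun _ => Real.log (N v)) (fun q hq => by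
          rw [(Finset.mem_filter.1 hq).2]), Finset.sum_const, nsmul_eq_mul]
      rw [h3, ← card_units p]
      refine mul_le_mul_of_nonneg_right ?_ (Real.log_natCast_nonneg _)
      have h4 : (F.filter (fun q => q.1.1 = v)).card ≤ (Finset.univ : Finset (ZMod p)ˣ).card := by
        refine Finset.card_le_card_of_injOn (fun q => q.1.2) (fun q _ => Finset.mem_univ _) ?_
        intro q hq q' hq' heq
        have h5 := (Finset.mem_filter.1 (Finset.mem_coe.1 hq)).2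
        have h6 := (Finset.mem_filter.1 (Finset.mem_coe.1 hq')).2
        exact Subtype.ext (Prod.ext (h5.trans h6.symm) heq)
      exact_mod_cast h4
    refine (Finset.sum_le_sum h2).trans ?_
    rw [← Finset.mul_sum, mul_assoc]
    refine mul_le_mul_of_nonneg_left (h.cheb x _ hx ?_) ?_
    · intro v hv
      obtain ⟨q, hq, rfl⟩ := Finset.mem_image.1 hv
      exact hF q hq
    · rw [← card_units p]
      positivity

open Classical in
theorem lab_ms {C : ℝ} (h : PSys N C) (A' : Set V) (hA : A' ⊆ A) (x : ℝ) :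
    ms (fun q : {q : V × (ZMod p)ˣ // q.1 ∈ A} => N q.1.1)
      ({q | q.1.1 ∈ A'}.indicator fun _ => 1) x =
      ((p : ℝ) - 1) * ms N (A'.indicator fun _ => 1) x := by
  have hl := lab_psys p N A h
  unfold ms
  have h1 : ∀ v, (A'.indicator (fun _ => (1 : ℝ)) v) / N v =
      if v ∈ A' then 1 / (N v : ℝ) else 0 := by
    intro v
    by_cases hv : v ∈ A' <;> simp [hv]
  have h2 : ∀ q : {q : V × (ZMod p)ˣ // q.1 ∈ A},
      ({q : {q : V × (ZMod p)ˣ // q.1 ∈ A} | q.1.1 ∈ A'}.indicator (fun _ => (1 : ℝ)) q) /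
        N q.1.1 = if q.1.1 ∈ A' then 1 / (N q.1.1 : ℝ) else 0 := by
    intro q
    by_cases hv : q.1.1 ∈ A'
    · have hv' : q ∈ {q : {q : V × (ZMod p)ˣ // q.1 ∈ A} | q.1.1 ∈ A'} := hv
      rw [Set.indicator_of_mem hv', if_pos hv]
    · have hv' : q ∉ {q : {q : V × (ZMod p)ˣ // q.1 ∈ A} | q.1.1 ∈ A'} := hv
      rw [Set.indicator_of_notMem hv', if_neg hv, zero_div]
  simp only [h1, h2]
  rw [← Finset.sum_filter, ← Finset.sum_filter, ← card_units p]
  have h3 : (Fintype.card (ZMod p)ˣ : ℝ) * ∑ v ∈ (pr N x).filter (· ∈ A'), 1 / (N v : ℝ) =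
      ∑ r ∈ ((pr N x).filter (· ∈ A')) ×ˢ (Finset.univ : Finset (ZMod p)ˣ), 1 / (N r.1 : ℝ) := by
    rw [Finset.sum_product, Finset.mul_sum]
    refine Finset.sum_congr rfl fun v _ => ?_
    show _ = ∑ _y : (ZMod p)ˣ, 1 / (N v : ℝ)
    rw [Finset.sum_const, nsmul_eq_mul, Finset.card_univ]
  rw [h3]
  refine Finset.sum_nbij (fun q => q.1) ?_ ?_ ?_ ?_
  · intro q hq
    rw [Finset.mem_filter] at hq
    rw [Finset.mem_product, Finset.mem_filter]
    exact ⟨⟨(mem_pr h).2 ((mem_pr hl).1 hq.1), hq.2⟩, Finset.mem_univ _⟩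
  · intro q _ q' _ heq
    exact Subtype.ext heq
  · intro r hr
    rw [Finset.mem_coe, Finset.mem_product, Finset.mem_filter] at hr
    refine ⟨⟨r, hA hr.1.2⟩, ?_, rfl⟩
    rw [Finset.mem_coe, Finset.mem_filter]
    exact ⟨(mem_pr hl).2 ((mem_pr h).1 hr.1.1), hr.1.2⟩
  · intro q _
    rfl

end lab

theorem n_lab (h1 : N_CHB) (h2 : N_SPL) : N_LAB := by
  intro p _ K M K₁ M₁ _ _ _ _ _ _ _ _ _ _ _ _ _ _ _ _ ε δ P B
  obtain ⟨C0, hC0⟩ := h1 K
  obtain ⟨C1, hC1⟩ := h2 K K₁ B.S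
  obtain ⟨C2, hC2⟩ := h2 K M₁ B.S
  have hp0 : 0 ≤ (p : ℝ) - 1 := by
    rw [← card_units p]
    positivity
  have hC0' := hC0.nonneg
  have key : ∀ (n : ℕ) (a b D : ℝ), |a - 1 / (n : ℝ) * b| ≤ D →
      |((p : ℝ) - 1) * a - ((p : ℝ) - 1) / n * b| ≤ ((p : ℝ) - 1) * D := by
    intro n a b D h
    have : ((p : ℝ) - 1) * a - ((p : ℝ) - 1) / n * b = ((p : ℝ) - 1) * (a - 1 / (n : ℝ) * b) := by
      ring
    rw [this, abs_mul, abs_of_nonneg hp0]
    exact mul_le_mul_of_nonneg_left h hp0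
  have hm1 : ((p : ℝ) - 1) * C0 ≤ ((p : ℝ) - 1) * (C0 + |C1| + |C2|) :=
    mul_le_mul_of_nonneg_left (by linarith [abs_nonneg C1, abs_nonneg C2]) hp0
  have hm2 : ((p : ℝ) - 1) * C1 ≤ ((p : ℝ) - 1) * (C0 + |C1| + |C2|) :=
    mul_le_mul_of_nonneg_left (by linarith [le_abs_self C1, abs_nonneg C2]) hp0
  have hm3 : ((p : ℝ) - 1) * C2 ≤ ((p : ℝ) - 1) * (C0 + |C1| + |C2|) :=
    mul_le_mul_of_nonneg_left (by linarith [le_abs_self C2, abs_nonneg C1]) hp0
  refine ⟨((p : ℝ) - 1) * (C0 + |C1| + |C2|), PSys.mono (lab_psys p nv B.calP hC0) hm1,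
    fun x hx => ⟨?_, ?_⟩⟩
  · have h3 := lab_ms p nv B.calP hC0 B.calP subset_rfl x
    have h4 : ({q : {q : HeightOneSpectrum (𝓞 K) × (ZMod p)ˣ // q.1 ∈ B.calP} |
        q.1.1 ∈ B.calP}.indicator fun _ => (1 : ℝ)) = fun _ => 1 := by
      funext q
      exact Set.indicator_of_mem (s := {q : {q : HeightOneSpectrum (𝓞 K) × (ZMod p)ˣ //
        q.1 ∈ B.calP} | q.1.1 ∈ B.calP}) q.2 _
    rw [h4] at h3
    show |ms (fun q : {q : HeightOneSpectrum (𝓞 K) × (ZMod p)ˣ // q.1 ∈ B.calP} => nv q.1.1)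
      (fun _ => 1) x - _| ≤ _
    rw [h3]
    exact (key _ _ _ _ (hC1 x hx)).trans hm2
  · have h3 := lab_ms p nv B.calP hC0 B.Vis (vis_sub B.S) x
    show |ms (fun q : {q : HeightOneSpectrum (𝓞 K) × (ZMod p)ˣ // q.1 ∈ B.calP} => nv q.1.1)
      ({q | q.1.1 ∈ B.Vis}.indicator fun _ => 1) x - _| ≤ _
    rw [h3]
    exact (key _ _ _ _ (hC2 x hx)).trans hm3

end Pool.Agent.Helper60.PPS
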